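import Pool.Agent.N301.HX.PENa

/-!
# HX/PEN: an inertia element of the trinomial over the simple critical value
-/

set_option autoImplicit false
set_option linter.unusedSectionVars false

namespace Pool.Agent.N301.PEN

open Polynomial

/-- the critical point -/
noncomputable def z0 (e : ℕ) : ℂ := e / (e - 1)

/-- the critical value -/
noncomputable def x0 (e : ℕ) : ℂ := e * z0 e ^ (e - 1)

theorem z0_eq {e : ℕ} (he : 2 ≤ e) : (e : ℂ) * (z0 e - 1) = z0 e := by
  have h : (e : ℂ) - 1 ≠ 0 := by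
    intro h
    have h1 : (e : ℂ) = ((1 : ℕ) : ℂ) := by push_cast; linear_combination h
    have := Nat.cast_injective h1
    omega
  unfold z0
  field_simp
  ring

theorem z0_ne_zero {e : ℕ} (he : 2 ≤ e) : z0 e ≠ 0 := by
  intro h
  have := z0_eq he
  rw [h] at this
  have h2 : (e : ℂ) = 0 := by linear_combination -this
  rw [Nat.cast_eq_zero] at h2
  omega

theorem z0_ne_one {e : ℕ} (he : 2 ≤ e) : z0 e - 1 ≠ 0 := by
  intro h
  have := z0_eq he
  rw [h, mul_zero] at this
  exact z0_ne_zero he this.symm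

theorem x0_ne_zero {e : ℕ} (he : 2 ≤ e) : x0 e ≠ 0 := by
  unfold x0
  exact mul_ne_zero (Nat.cast_ne_zero.2 (by omega)) (pow_ne_zero _ (z0_ne_zero he))

theorem z0_pow {e : ℕ} (he : 2 ≤ e) : z0 e ^ e = x0 e * (z0 e - 1) := by
  have h := z0_eq he
  have h2 : z0 e ^ e = z0 e ^ (e - 1) * z0 e := by
    rw [← pow_succ]
    congr 1
    omega
  rw [h2]
  unfold x0
  linear_combination -(z0 e ^ (e - 1)) * h

section red

variable {κ : Type} [CommRing κ] [IsDomain κ] [CharZero κ]

/-- a double root of the reduction -/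
theorem double {e : ℕ} (he : 2 ≤ e) (a c : κ) (ha : a ≠ 0)
    (h : (X - C c) ^ 2 ∣ (X ^ e - C a * X + C a : κ[X])) :
    ((e : κ) - 1) * c = e ∧ c ^ e = a * (c - 1) := by
  obtain ⟨g, hg⟩ := h
  have h1 : c ^ e = a * (c - 1) := by
    have := congrArg (eval c) hg
    simp at this
    linear_combination this
  have h2 : (e : κ) * c ^ (e - 1) = a := by
    have := congrArg (fun p => eval c (derivative p)) hg
    simp [derivative_pow] at this
    linear_combination this
  refine ⟨?_, h1⟩
  have h3 : c ^ e = c ^ (e - 1) * c := by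
    rw [← pow_succ]
    congr 1
    omega
  apply mul_left_cancel₀ ha
  rw [h3] at h1
  linear_combination -(e : κ) * h1 + c * h2

theorem triple {e : ℕ} (he : 2 ≤ e) (a c : κ) (ha : a ≠ 0)
    (h : (X - C c) ^ 3 ∣ (X ^ e - C a * X + C a : κ[X])) : False := by
  obtain ⟨g, hg⟩ := h
  have h2 : (e : κ) * c ^ (e - 1) = a := by
    have := congrArg (fun p => eval c (derivative p)) hg
    simp [derivative_pow] at this
    linear_combination this
  have h3 : (e : κ) * (((e - 1 : ℕ) : κ) * c ^ (e - 1 - 1)) = 0 := by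
    have := congrArg (fun p => eval c (derivative (derivative p))) hg
    simp [derivative_pow] at this
    rcases this with h | h
    · exfalso; omega
    · rcases h with h | h
      · rw [h]; simp
      · simp [h]
  have hc : c ≠ 0 := by
    rintro rfl
    rw [zero_pow (by omega), mul_zero] at h2
    exact ha h2.symm
  have h4 : (e : κ) ≠ 0 := Nat.cast_ne_zero.2 (by omega)
  have h5 : ((e - 1 : ℕ) : κ) ≠ 0 := Nat.cast_ne_zero.2 (by omega)
  exact mul_ne_zero h4 (mul_ne_zero h5 (pow_ne_zero _ hc)) h3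

end red

section gal

/-- the trinomial over the polynomial ring -/
noncomputable def tX (e : ℕ) : ℂ[X][X] := X ^ e - C X * X + C X

theorem tX_monic {e : ℕ} (he : 2 ≤ e) : (tX e).Monic := by
  have : tX e = X ^ e + (-(C (X : ℂ[X]) * X) + C (X : ℂ[X])) := by unfold tX; ring
  rw [this]
  apply monic_X_pow_add
  refine lt_of_le_of_lt (degree_add_le _ _) (max_lt ?_ ?_)
  · rw [degree_neg]
    refine lt_of_le_of_lt (degree_C_mul_X_le _) ?_
    exact_mod_cast (by omega : 1 < e)
  · refine lt_of_le_of_lt degree_C_le ?_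
    exact_mod_cast (by omega : 0 < e)

theorem tX_map (e : ℕ) : (tX e).map (algebraMap ℂ[X] (RatFunc ℂ)) = tri e := by
  unfold tX tri
  simp

variable {L : Type} [Field L] [Algebra (RatFunc ℂ) L] [Algebra ℂ[X] L]
  [IsScalarTower ℂ[X] (RatFunc ℂ) L]

theorem root_int {e : ℕ} (he : 2 ≤ e) (r : L) (hr : aeval r (tri e) = 0) :
    r ∈ integralClosure ℂ[X] L := by
  refine ⟨tX e, tX_monic he, ?_⟩
  rw [← hr, ← tX_map, aeval_def, eval₂_map, ← IsScalarTower.algebraMap_eq]

variable [FiniteDimensional (RatFunc ℂ) L] [IsGalois (RatFunc ℂ) L]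

theorem exists_transp {e : ℕ} (he : 2 ≤ e)
    (hs : ((tri e).map (algebraMap (RatFunc ℂ) L)).Splits) :
    ∃ σ : L ≃ₐ[RatFunc ℂ] L, σ ≠ 1 ∧ ∀ r s t : L, aeval r (tri e) = 0 → aeval s (tri e) = 0 →
      aeval t (tri e) = 0 → σ r ≠ r → σ s ≠ s → σ t ≠ t → r ≠ s → r ≠ t → s ≠ t → False := by
  classical
  let S := integralClosure ℂ[X] L
  have i1 : IsDedekindDomain S := IsIntegralClosure.isDedekindDomain ℂ[X] (RatFunc ℂ) L S
  have i2 : IsFractionRing S L :=
    IsIntegralClosure.isFractionRing_of_finite_extension ℂ[X] (RatFunc ℂ) L S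
  have i3 : Module.Finite ℂ[X] S := IsIntegralClosure.finite ℂ[X] (RatFunc ℂ) L S
  have i4 : IsGaloisGroup (L ≃ₐ[RatFunc ℂ] L) ℂ[X] S :=
    IsGaloisGroup.of_isFractionRing (L ≃ₐ[RatFunc ℂ] L) ℂ[X] S (RatFunc ℂ) L
  have i43 : FaithfulSMul ℂ[X] L := (faithfulSMul_iff_algebraMap_injective _ _).2 (by
    rw [IsScalarTower.algebraMap_eq ℂ[X] (RatFunc ℂ) L]
    exact (algebraMap (RatFunc ℂ) L).injective.comp (IsFractionRing.injective ℂ[X] (RatFunc ℂ)))
  have i45 : Module.IsTorsionFree ℂ[X] L := inferInstance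
  have i44 : Module.IsTorsionFree ℂ[X] S := IsIntegralClosure.isTorsionFree ℂ[X] (A := S) L
  have i5 : Module.Flat ℂ[X] S := inferInstance
  let p : Ideal ℂ[X] := Ideal.span {X - C (x0 e)}
  have hp0 : p ≠ ⊥ := by
    intro h
    rw [Ideal.span_singleton_eq_bot] at h
    exact X_sub_C_ne_zero (x0 e) h
  have hp1 : p.IsPrime :=
    (Ideal.span_singleton_prime (X_sub_C_ne_zero (x0 e))).2 (prime_X_sub_C (x0 e))
  have hp2 : p.IsMaximal := hp1.isMaximal hp0
  obtain ⟨P, hP1, hP2⟩ := Ideal.exists_maximal_ideal_liesOver_of_isIntegral (S := S) p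
  have i6 : CharZero p.ResidueField :=
    charZero_of_injective_algebraMap (R := ℂ) (algebraMap ℂ p.ResidueField).injective
  have i7 : PerfectField p.ResidueField := inferInstance
  have h1 := Ideal.card_inertia_eq_ramificationIdxIn (G := (L ≃ₐ[RatFunc ℂ] L)) p P
  have h2 := Ideal.ramificationIdxIn_eq_ramificationIdx p P (L ≃ₐ[RatFunc ℂ] L)
  have h3 := Ideal.ramificationIdx'_eq_ramificationIdx p P hp0
  -- the residue field
  let ι₀ : ℂ →+* S := (algebraMap ℂ[X] S).comp C
  let ι : ℂ →+* S ⧸ P := (Ideal.Quotient.mk P).comp ι₀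
  have hιinj : Function.Injective ι := ι.injective
  have i8 : CharZero (S ⧸ P) := charZero_of_injective_ringHom hιinj
  let xh : S := algebraMap ℂ[X] S X
  have hpP : ∀ a ∈ p, algebraMap ℂ[X] S a ∈ P := by
    intro a ha
    rw [hP2.over] at ha
    exact ha
  have hxP : xh - ι₀ (x0 e) ∈ P := by
    have := hpP (X - C (x0 e)) (Ideal.mem_span_singleton_self _)
    rw [map_sub] at this
    exact this
  have hxb : Ideal.Quotient.mk P xh = ι (x0 e) := by
    rw [← sub_eq_zero]
    change Ideal.Quotient.mk P xh - Ideal.Quotient.mk P (ι₀ (x0 e)) = 0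
    rw [← map_sub, Ideal.Quotient.eq_zero_iff_mem]
    exact hxP
  have ha0 : ι (x0 e) ≠ 0 := (map_ne_zero ι).2 (x0_ne_zero he)
  -- the polynomial over `S`
  let fS : S[X] := X ^ e - C xh * X + C xh
  have hfS : fS = (tX e).map (algebraMap ℂ[X] S) := by
    simp only [fS, tX, xh]
    simp
  have hfSm : fS.Monic := by
    rw [hfS]
    exact (tX_monic he).map _
  have hfSL : fS.map (algebraMap S L) = (tri e).map (algebraMap (RatFunc ℂ) L) := by
    rw [hfS, map_map, ← tX_map, map_map, ← IsScalarTower.algebraMap_eq,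
      ← IsScalarTower.algebraMap_eq]
  have hfb : fS.map (Ideal.Quotient.mk P) = X ^ e - C (ι (x0 e)) * X + C (ι (x0 e)) := by
    simp only [fS, Polynomial.map_add, Polynomial.map_sub, Polynomial.map_mul, Polynomial.map_pow,
      map_X, map_C, hxb]
  have hrootS : ∀ r : S, fS.IsRoot r ↔ r ^ e = xh * (r - 1) := by
    intro r
    simp only [fS, IsRoot.def, eval_add, eval_sub, eval_mul, eval_pow, eval_X, eval_C]
    constructor
    · intro h
      linear_combination h
    · intro h
      linear_combination h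
  have hrootL : ∀ r : S, fS.IsRoot r ↔ aeval (r : L) (tri e) = 0 := by
    intro r
    have e1 : aeval (r : L) (tri e) = algebraMap S L (eval r fS) := by
      rw [← eval_map_algebraMap, ← hfSL, eval_map]
      exact eval₂_at_apply (algebraMap S L) r
    rw [e1, IsRoot.def]
    constructor
    · intro h
      rw [h, map_zero]
    · intro h
      exact (map_eq_zero_iff _ (IsFractionRing.injective S L)).1 h
  have hdvd : ∀ M : Multiset S, M.Nodup → (∀ r ∈ M, fS.IsRoot r) →
      (M.map (fun r => X - C r)).prod ∣ fS := by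
    intro M hM h
    rw [Multiset.prod_X_sub_C_dvd_iff_le_roots hfSm.ne_zero]
    rw [Multiset.le_iff_subset hM]
    intro r hr
    exact (mem_roots hfSm.ne_zero).2 (h r hr)
  -- a root congruent to `z0`
  have hlift : ∃ M : Multiset S, M.map (algebraMap S L) =
      ((tri e).map (algebraMap (RatFunc ℂ) L)).roots := by
    refine ⟨((tri e).map (algebraMap (RatFunc ℂ) L)).roots.attach.map
      (fun r => (⟨r.1, root_int he r.1 ?_⟩ : S)), ?_⟩
    · have := (mem_roots'.1 r.2).2
      rwa [IsRoot.def, eval_map_algebraMap] at this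
    · rw [Multiset.map_map]
      exact Multiset.attach_map_val _
  obtain ⟨M, hM⟩ := hlift
  have hprod : fS = (M.map (fun r => X - C r)).prod := by
    apply map_injective (algebraMap S L) (IsFractionRing.injective S L)
    have hm : ((tri e).map (algebraMap (RatFunc ℂ) L)).Monic := by
      rw [← hfSL]
      exact hfSm.map _
    rw [hfSL, hs.eq_prod_roots_of_monic hm, ← hM, Polynomial.map_multiset_prod, Multiset.map_map,
      Multiset.map_map]
    congr 1
    apply Multiset.map_congr rfl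
    intro r _
    simp
  have hz : ∃ r : S, fS.IsRoot r ∧ r - ι₀ (z0 e) ∈ P := by
    have e1 : eval (ι₀ (z0 e)) fS ∈ P := by
      rw [← Ideal.Quotient.eq_zero_iff_mem]
      have : Ideal.Quotient.mk P (eval (ι₀ (z0 e)) fS) =
          eval (ι (z0 e)) (fS.map (Ideal.Quotient.mk P)) := by
        rw [eval_map]
        exact (eval₂_at_apply (Ideal.Quotient.mk P) (ι₀ (z0 e))).symm
      rw [this, hfb]
      simp only [eval_add, eval_sub, eval_mul, eval_pow, eval_X, eval_C]
      rw [← map_pow, ← map_mul, ← map_sub, ← map_add, z0_pow he]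
      have : x0 e * (z0 e - 1) - x0 e * z0 e + x0 e = 0 := by ring
      rw [this, map_zero]
    rw [hprod, eval_multiset_prod, Multiset.map_map] at e1
    obtain ⟨r, hrM, hr⟩ := (Ideal.IsPrime.multiset_prod_mem_iff_exists_mem hP1.isPrime _).1 e1
    obtain ⟨r', hr'M, rfl⟩ := Multiset.mem_map.1 hrM
    refine ⟨r', ?_, ?_⟩
    · rw [hprod, IsRoot.def, eval_multiset_prod, Multiset.map_map]
      apply Multiset.prod_eq_zero
      exact Multiset.mem_map.2 ⟨r', hr'M, by simp⟩
    · have : r' - ι₀ (z0 e) = -(eval (ι₀ (z0 e)) (X - C r')) := by simp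
      rw [this]
      exact P.neg_mem hr
  obtain ⟨r, hr, hrz⟩ := hz
  -- ramification
  have hP2mem : xh - ι₀ (x0 e) ∈ P ^ 2 := by
    have hr' := (hrootS r).1 hr
    obtain ⟨k, hk⟩ := powAddExpansion (ι₀ (z0 e)) (r - ι₀ (z0 e)) e
    have e1 : (xh - ι₀ (x0 e)) * (r - 1) = k * (r - ι₀ (z0 e)) ^ 2 := by
      have e2 : ι₀ (z0 e) + (r - ι₀ (z0 e)) = r := by ring
      rw [e2, hr'] at hk
      have e3 : ι₀ (z0 e) ^ e = ι₀ (x0 e) * (ι₀ (z0 e) - 1) := by
        rw [← map_pow, z0_pow he]
        simp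
      have e4 : (e : S) * ι₀ (z0 e) ^ (e - 1) = ι₀ (x0 e) := by
        rw [← map_pow, ← map_natCast ι₀, ← map_mul]
        rfl
      rw [e3, e4] at hk
      linear_combination hk
    have e5 : (xh - ι₀ (x0 e)) * (r - 1) ∈ P ^ 2 := by
      rw [e1]
      exact Ideal.mul_mem_left _ _ (Ideal.pow_mem_pow hrz 2)
    have e6 : r - 1 ∉ P := by
      intro h
      have h7 : Ideal.Quotient.mk P (r - 1) = ι (z0 e - 1) := by
        have : r - 1 = (r - ι₀ (z0 e)) + ι₀ (z0 e - 1) := by
          rw [map_sub, map_one]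
          ring
        rw [this, map_add, Ideal.Quotient.eq_zero_iff_mem.2 hrz, zero_add]
        rfl
      rw [Ideal.Quotient.eq_zero_iff_mem.2 h] at h7
      exact (map_ne_zero ι).2 (z0_ne_one he) h7.symm
    obtain ⟨b, hb⟩ : ∃ b : S, b * (r - 1) - 1 ∈ P := by
      obtain ⟨y, i, hi, hy⟩ := hP1.exists_inv e6
      refine ⟨y, ?_⟩
      have : y * (r - 1) - 1 = -i := by linear_combination hy
      rw [this]
      exact P.neg_mem hi
    have e8 : xh - ι₀ (x0 e) = b * ((xh - ι₀ (x0 e)) * (r - 1)) -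
        (xh - ι₀ (x0 e)) * (b * (r - 1) - 1) := by ring
    rw [e8]
    refine Ideal.sub_mem _ (Ideal.mul_mem_left _ _ e5) ?_
    rw [pow_two]
    exact Ideal.mul_mem_mul hxP hb
  have hle1 : Ideal.map (algebraMap ℂ[X] S) p ≤ P ^ 2 := by
    change Ideal.map (algebraMap ℂ[X] S) (Ideal.span {X - C (x0 e)}) ≤ P ^ 2
    rw [Ideal.map_span, Set.image_singleton, Ideal.span_singleton_le_iff_mem, map_sub]
    exact hP2mem
  have hne : Ideal.ramificationIdx' p P ≠ 1 :=
    (Ideal.ramificationIdx'_ne_one_iff (hle1.trans (Ideal.pow_le_self two_ne_zero))).2 hle1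
  have hcard : Nat.card (P.inertia (L ≃ₐ[RatFunc ℂ] L)) ≠ 1 := by
    rw [h1, h2, ← h3]
    exact hne
  obtain ⟨σ, hσ, hσ1⟩ : ∃ σ ∈ P.inertia (L ≃ₐ[RatFunc ℂ] L), σ ≠ 1 := by
    by_contra hno
    push Not at hno
    apply hcard
    rw [(Subgroup.eq_bot_iff_forall _).2 hno, Subgroup.card_bot]
  refine ⟨σ, hσ1, ?_⟩
  -- moved roots reduce to `z0`
  have hmoved : ∀ t : S, fS.IsRoot t → σ (t : L) ≠ t → Ideal.Quotient.mk P t = ι (z0 e) := by
    intro t ht hσt
    have hσt' : fS.IsRoot (σ • t) := by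
      rw [hrootL] at ht ⊢
      change aeval (σ (t : L)) (tri e) = 0
      rw [aeval_algHom_apply, ht, map_zero]
    have hne : t ≠ σ • t := by
      intro h
      apply hσt
      have := congrArg (fun x : S => (x : L)) h
      exact this.symm
    have hd := hdvd {t, σ • t} (by simp [hne]) (by
      intro r hr
      simp only [Multiset.insert_eq_cons, Multiset.mem_cons, Multiset.mem_singleton] at hr
      rcases hr with rfl | rfl
      · exact ht
      · exact hσt')
    have hd2 := Polynomial.map_dvd (Ideal.Quotient.mk P) hd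
    have hmk : Ideal.Quotient.mk P (σ • t) = Ideal.Quotient.mk P t := by
      rw [Ideal.Quotient.mk_eq_mk_iff_sub_mem]
      exact hσ t
    rw [hfb] at hd2
    simp only [Multiset.insert_eq_cons, Multiset.map_cons, Multiset.map_singleton,
      Multiset.prod_cons, Multiset.prod_singleton, Polynomial.map_mul, Polynomial.map_sub, map_X,
      map_C, hmk, ← pow_two] at hd2
    obtain ⟨h5, -⟩ := double he _ _ ha0 hd2
    have h6 : ((e : S ⧸ P) - 1) * ι (z0 e) = e := by
      have : ((e : ℂ) - 1) * z0 e = e := by linear_combination z0_eq he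
      have := congrArg ι this
      simpa using this
    have h7 : (e : S ⧸ P) - 1 ≠ 0 := by
      have : (e : S ⧸ P) - 1 = ((e - 1 : ℕ) : S ⧸ P) := by
        push_cast [Nat.cast_sub (show 1 ≤ e by omega)]
        ring
      rw [this]
      exact Nat.cast_ne_zero.2 (by omega)
    exact mul_left_cancel₀ h7 (h5.trans h6.symm)
  intro r s t hr hs' ht hσr hσs hσt hrs hrt hst
  let r' : S := ⟨r, root_int he r hr⟩
  let s' : S := ⟨s, root_int he s hs'⟩
  let t' : S := ⟨t, root_int he t ht⟩
  have hr1 : fS.IsRoot r' := (hrootL r').2 hr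
  have hs1 : fS.IsRoot s' := (hrootL s').2 hs'
  have ht1 : fS.IsRoot t' := (hrootL t').2 ht
  have mr := hmoved r' hr1 hσr
  have ms := hmoved s' hs1 hσs
  have mt := hmoved t' ht1 hσt
  have n1 : r' ≠ s' := fun h => hrs (congrArg Subtype.val h)
  have n2 : r' ≠ t' := fun h => hrt (congrArg Subtype.val h)
  have n3 : s' ≠ t' := fun h => hst (congrArg Subtype.val h)
  have hd := hdvd {r', s', t'} (by simp [n1, n2, n3]) (by
    intro r hr
    simp only [Multiset.insert_eq_cons, Multiset.mem_cons, Multiset.mem_singleton] at hr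
    rcases hr with rfl | rfl | rfl
    · exact hr1
    · exact hs1
    · exact ht1)
  have hd2 := Polynomial.map_dvd (Ideal.Quotient.mk P) hd
  rw [hfb] at hd2
  simp only [Multiset.insert_eq_cons, Multiset.map_cons, Multiset.map_singleton,
    Multiset.prod_cons, Multiset.prod_singleton, Polynomial.map_mul, Polynomial.map_sub, map_X,
    map_C, mr, ms, mt] at hd2
  apply triple he (ι (x0 e)) (ι (z0 e)) ha0
  rw [pow_succ, pow_two, mul_assoc]
  exact hd2

end gal

end Pool.Agent.N301.PEN
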