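import Pool.Agent.N89.HX.Stm
import Pool.Agent.N301.HX.PENb

/-!
# HX/PEN: the trinomial `Z^e - x Z + x` has Galois group `S_e` over `ℂ(x)`
-/

set_option autoImplicit false
set_option linter.unusedSectionVars false

namespace Pool.Agent.N301.PEN

open Polynomial Pool.Agent.N89.HX

/-- the algebraic closure -/
abbrev Om : Type := AlgebraicClosure (RatFunc ℂ)

theorem z0_alg {e : ℕ} (he : 2 ≤ e) {Ω : Type} [Field Ω] [Algebra ℂ Ω] (a : Ω)
    (h : ((e : Ω) - 1) * a = e) : a = algebraMap ℂ Ω (z0 e) := by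
  have hc : CharZero Ω := charZero_of_injective_algebraMap (algebraMap ℂ Ω).injective
  have h7 : (e : Ω) - 1 ≠ 0 := by
    have : (e : Ω) - 1 = ((e - 1 : ℕ) : Ω) := by
      push_cast [Nat.cast_sub (show 1 ≤ e by omega)]
      ring
    rw [this]
    exact Nat.cast_ne_zero.2 (by omega)
  apply mul_left_cancel₀ h7
  rw [h]
  have h8 : ((e : ℂ) - 1) * z0 e = e := by linear_combination z0_eq he
  have := congrArg (algebraMap ℂ Ω) h8
  simp only [map_mul, map_sub, map_one, map_natCast] at this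
  exact this.symm

theorem sep {e : ℕ} (he : 2 ≤ e) : (tri e).Separable := by
  rw [separable_def, isCoprime_iff_aeval_ne_zero_of_isAlgClosed (RatFunc ℂ) Om]
  intro a
  by_contra hno
  push Not at hno
  obtain ⟨h1, h2⟩ := hno
  rw [root_iff] at h1
  have h3 : (e : Om) * a ^ (e - 1) = xx Om := by
    unfold tri at h2
    simp only [derivative_add, derivative_X_pow, derivative_C_mul, derivative_X,
      mul_one, derivative_C, add_zero, map_sub, map_mul, map_natCast, map_pow, aeval_X,
      aeval_C] at h2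
    unfold xx
    linear_combination h2
  have hx0 : xx Om ≠ 0 := xx_ne_zero Om
  have h4 : a ^ e = a ^ (e - 1) * a := by
    rw [← pow_succ]
    congr 1
    omega
  have h5 : ((e : Om) - 1) * a = e := by
    apply mul_left_cancel₀ hx0
    rw [h4] at h1
    linear_combination -(e : Om) * h1 + a * h3
  have h6 := z0_alg he a h5
  apply xx_tr Om
  rw [← h3, h6, ← map_natCast (algebraMap ℂ Om), ← map_pow, ← map_mul]
  exact isAlgebraic_algebraMap _

theorem deg {e : ℕ} (he : 2 ≤ e) : (tri e).natDegree = e := by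
  rw [← tX_map, (tX_monic he).natDegree_map]
  have : tX e = X ^ e + (-(C (X : ℂ[X]) * X) + C (X : ℂ[X])) := by unfold tX; ring
  rw [this]
  apply natDegree_eq_of_degree_eq_some
  rw [degree_add_eq_left_of_degree_lt, degree_X_pow]
  rw [degree_X_pow]
  refine lt_of_le_of_lt (degree_add_le _ _) (max_lt ?_ ?_)
  · rw [degree_neg]
    refine lt_of_le_of_lt (degree_C_mul_X_le _) ?_
    exact_mod_cast (by omega : 1 < e)
  · refine lt_of_le_of_lt degree_C_le ?_
    exact_mod_cast (by omega : 0 < e)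

theorem tri_ne_zero {e : ℕ} (he : 2 ≤ e) : tri e ≠ 0 := by
  intro h
  have := deg he
  rw [h, natDegree_zero] at this
  omega

/-- an automorphism acting as a transposition -/
theorem transp {e : ℕ} (he : 2 ≤ e) : ∃ (τ : Om ≃ₐ[RatFunc ℂ] Om) (r s : Om),
    aeval r (tri e) = 0 ∧ aeval s (tri e) = 0 ∧ r ≠ s ∧ τ r = s ∧ τ s = r ∧
    ∀ t, aeval t (tri e) = 0 → t ≠ r → t ≠ s → τ t = t := by
  classical
  let N : IntermediateField (RatFunc ℂ) Om := IntermediateField.adjoin _ ((tri e).rootSet Om)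
  have j1 : (tri e).IsSplittingField (RatFunc ℂ) N :=
    IntermediateField.adjoin_rootSet_isSplittingField
      (IsAlgClosed.splits ((tri e).map (algebraMap (RatFunc ℂ) Om)))
  have j2 : IsGalois (RatFunc ℂ) N := IsGalois.of_separable_splitting_field (p := tri e) (sep he)
  have j3 : FiniteDimensional (RatFunc ℂ) N := IsSplittingField.finiteDimensional N (tri e)
  obtain ⟨σ, hσ1, hσ⟩ := exists_transp (L := N) he (IsSplittingField.splits N (tri e))
  let τ : Om ≃ₐ[RatFunc ℂ] Om := σ.liftNormal Om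
  have hτ : ∀ a : N, τ (a : Om) = (σ a : N) := fun a => σ.liftNormal_commutes Om a
  have hmem : ∀ t, aeval t (tri e) = 0 → t ∈ N := fun t ht =>
    IntermediateField.subset_adjoin _ _ ((mem_rootSet).2 ⟨tri_ne_zero he, ht⟩)
  have hroot : ∀ t (ht : aeval t (tri e) = 0), aeval (⟨t, hmem t ht⟩ : N) (tri e) = 0 := by
    intro t ht
    have h1 : aeval ((algebraMap N Om) ⟨t, hmem t ht⟩) (tri e) = 0 := ht
    rw [aeval_algebraMap_apply] at h1
    exact (map_eq_zero_iff _ (algebraMap N Om).injective).1 h1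
  have hroot2 : ∀ t, aeval t (tri e) = 0 → aeval (τ t) (tri e) = 0 := by
    intro t ht
    rw [aeval_algHom_apply, ht, map_zero]
  have hthree : ∀ r s t : Om, aeval r (tri e) = 0 → aeval s (tri e) = 0 → aeval t (tri e) = 0 →
      τ r ≠ r → τ s ≠ s → τ t ≠ t → r ≠ s → r ≠ t → s ≠ t → False := by
    intro r s t hr hs ht h1 h2 h3 h4 h5 h6
    refine hσ ⟨r, hmem r hr⟩ ⟨s, hmem s hs⟩ ⟨t, hmem t ht⟩ (hroot r hr) (hroot s hs) (hroot t ht)
      ?_ ?_ ?_ ?_ ?_ ?_
    · intro h
      exact h1 ((hτ ⟨r, hmem r hr⟩).trans (congrArg Subtype.val h))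
    · intro h
      exact h2 ((hτ ⟨s, hmem s hs⟩).trans (congrArg Subtype.val h))
    · intro h
      exact h3 ((hτ ⟨t, hmem t ht⟩).trans (congrArg Subtype.val h))
    · exact fun h => h4 (congrArg Subtype.val h)
    · exact fun h => h5 (congrArg Subtype.val h)
    · exact fun h => h6 (congrArg Subtype.val h)
  obtain ⟨r, hr, hτr⟩ : ∃ r, aeval r (tri e) = 0 ∧ τ r ≠ r := by
    by_contra hno
    push Not at hno
    apply hσ1
    have h1 : ((IntermediateField.val N).comp (σ : N →ₐ[RatFunc ℂ] N)) =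
        IntermediateField.val N := by
      refine IntermediateField.adjoin_algHom_ext (RatFunc ℂ) ?_
      intro x hx
      have h2 := hno x (mem_rootSet.1 hx).2
      have h3 := hτ ⟨x, hmem x (mem_rootSet.1 hx).2⟩
      change ((σ ⟨x, _⟩ : N) : Om) = x
      rw [← h3]
      exact h2
    ext a
    exact AlgHom.congr_fun h1 a
  have hs := hroot2 r hr
  have hτs : τ (τ r) ≠ τ r := fun h => hτr (τ.injective h)
  have hfix : ∀ t, aeval t (tri e) = 0 → t ≠ r → t ≠ τ r → τ t = t := by
    intro t ht h1 h2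
    by_contra h3
    exact hthree r (τ r) t hr hs ht hτr hτs h3 (Ne.symm hτr) (Ne.symm h1) (Ne.symm h2)
  refine ⟨τ, r, τ r, hr, hs, Ne.symm hτr, rfl, ?_, hfix⟩
  by_contra h
  have h1 := hfix (τ (τ r)) (hroot2 _ hs) h hτs
  exact hτs (τ.injective h1)

theorem full {e : ℕ} (he : 2 ≤ e) : FullGal e (tri e) := by
  classical
  refine ⟨deg he, sep he, ?_⟩
  let H : Subgroup (Equiv.Perm ((tri e).rootSet Om)) :=
    { carrier := {π | ∃ τ : Om ≃ₐ[RatFunc ℂ] Om, ∀ x : (tri e).rootSet Om, τ (x : Om) = π x}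
      mul_mem' := by
        rintro a b ⟨τ, hτ⟩ ⟨τ', hτ'⟩
        refine ⟨τ'.trans τ, fun x => ?_⟩
        rw [AlgEquiv.trans_apply, hτ', hτ]
        rfl
      one_mem' := ⟨AlgEquiv.refl, fun x => rfl⟩
      inv_mem' := by
        rintro a ⟨τ, hτ⟩
        refine ⟨τ.symm, fun x => ?_⟩
        have := hτ (a⁻¹ x)
        rw [show a (a⁻¹ x) = x from Equiv.apply_symm_apply a x] at this
        rw [← this, AlgEquiv.symm_apply_apply] }
  have hH : H = ⊤ := by
    rw [eq_top_iff, ← Equiv.Perm.closure_isSwap, Subgroup.closure_le]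
    rintro π ⟨a, b, hab, rfl⟩
    obtain ⟨τ, r, s, hr, hs, hrs, hτr, hτs, hfix⟩ := transp he
    have ha := (mem_rootSet.1 a.2).2
    have hb := (mem_rootSet.1 b.2).2
    obtain ⟨ρ, hρr, hρs⟩ := two_trans he hr hs hrs ha hb (fun h => hab (Subtype.ext h))
    refine ⟨(ρ.symm.trans τ).trans ρ, fun x => ?_⟩
    rw [AlgEquiv.trans_apply, AlgEquiv.trans_apply]
    by_cases hxa : x = a
    · subst hxa
      rw [Equiv.swap_apply_left, ← hρr, AlgEquiv.symm_apply_apply, hτr, hρs]
    · by_cases hxb : x = b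
      · subst hxb
        rw [Equiv.swap_apply_right, ← hρs, AlgEquiv.symm_apply_apply, hτs, hρr]
      · rw [Equiv.swap_apply_of_ne_of_ne hxa hxb]
        have h1 : aeval (ρ.symm (x : Om)) (tri e) = 0 := by
          rw [aeval_algHom_apply, (mem_rootSet.1 x.2).2, map_zero]
        have h2 : ρ.symm (x : Om) ≠ r := by
          intro h
          apply hxa
          apply Subtype.ext
          rw [← hρr, ← h, AlgEquiv.apply_symm_apply]
        have h3 : ρ.symm (x : Om) ≠ s := by
          intro h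
          apply hxb
          apply Subtype.ext
          rw [← hρs, ← h, AlgEquiv.apply_symm_apply]
        rw [hfix _ h1 h2 h3, AlgEquiv.apply_symm_apply]
  intro π
  have : π ∈ H := hH ▸ Subgroup.mem_top π
  exact this

theorem pol_eq {e : ℕ} (he : 2 ≤ e) :
    pol (fun i : Fin (e + 1) => algebraMap ℂ[X] (RatFunc ℂ)
      (C (if (i : ℕ) = e then (1 : ℂ) else 0) +
        C (if (i : ℕ) = 0 then (1 : ℂ) else if (i : ℕ) = 1 then -1 else 0) * X)) = tri e := by
  unfold pol tri
  rw [Fin.sum_univ_eq_sum_range (fun i => C (algebraMap ℂ[X] (RatFunc ℂ)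
      (C (if i = e then (1 : ℂ) else 0) +
        C (if i = 0 then (1 : ℂ) else if i = 1 then -1 else 0) * X)) * X ^ i) (e + 1)]
  obtain ⟨m, rfl⟩ := Nat.exists_eq_add_of_le' he
  rw [Finset.sum_range_succ, Finset.sum_range_succ', Finset.sum_range_succ']
  have h0 : ∑ k ∈ Finset.range m, (C (algebraMap ℂ[X] (RatFunc ℂ)
      (C (if k + 1 + 1 = m + 2 then (1 : ℂ) else 0) +
        C (if k + 1 + 1 = 0 then (1 : ℂ) else if k + 1 + 1 = 1 then -1 else 0) * X)) *
          X ^ (k + 1 + 1) : (RatFunc ℂ)[X]) = 0 := by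
    apply Finset.sum_eq_zero
    intro k hk
    rw [Finset.mem_range] at hk
    rw [if_neg (by omega), if_neg (by omega), if_neg (by omega)]
    simp
  rw [h0]
  simp
  ring

theorem main : S_PEN := by
  intro e he
  refine ⟨fun i => if (i : ℕ) = e then 1 else 0,
    fun i => if (i : ℕ) = 0 then 1 else if (i : ℕ) = 1 then -1 else 0, ?_⟩
  have := pol_eq he
  rw [this]
  exact full he

end Pool.Agent.N301.PEN
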