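import Mathlib

/-!
# HX/PEN: the trinomial `Z^e - x Z + x` over `ℂ(x)`, two-transitivity
-/

set_option autoImplicit false

namespace Pool.Agent.N301.PEN

open Polynomial

/-- the trinomial -/
noncomputable def tri (e : ℕ) : (RatFunc ℂ)[X] :=
  X ^ e - C (RatFunc.X : RatFunc ℂ) * X + C (RatFunc.X : RatFunc ℂ)

theorem iso {F Ω₁ Ω₂ : Type} [Field F] [Field Ω₁] [Field Ω₂] [Algebra F Ω₁] [Algebra F Ω₂]
    [IsAlgClosed Ω₁] [IsAlgClosed Ω₂] [Algebra.IsAlgebraic F Ω₁] [Algebra.IsAlgebraic F Ω₂] :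
    ∃ σ : Ω₁ ≃+* Ω₂, ∀ a, σ (algebraMap F Ω₁ a) = algebraMap F Ω₂ a := by
  have h1 : IsAlgClosure F Ω₁ := ⟨inferInstance, inferInstance⟩
  have h2 : IsAlgClosure F Ω₂ := ⟨inferInstance, inferInstance⟩
  exact ⟨(IsAlgClosure.equiv F Ω₁ Ω₂).toRingEquiv, fun a => (IsAlgClosure.equiv F Ω₁ Ω₂).commutes a⟩

theorem algebraic_of_comp {K F Ω : Type} [Field K] [Field F] [Field Ω] [Algebra K Ω]
    [Algebra.IsAlgebraic K Ω] (j : K →+* F) (t : F →+* Ω) (h : t.comp j = algebraMap K Ω) :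
    @Algebra.IsAlgebraic F Ω _ _ t.toAlgebra := by
  let _ := t.toAlgebra
  let _ := j.toAlgebra
  have : IsScalarTower K F Ω := IsScalarTower.of_algebraMap_eq' h.symm
  exact Algebra.IsAlgebraic.tower_top (K := K) F

theorem ext_hom {K F Ω : Type} [Field K] [Field F] [Field Ω] [Algebra K Ω]
    [Algebra.IsAlgebraic K Ω] [IsAlgClosed Ω] (j j' : K →+* F) (t t' : F →+* Ω)
    (h : t.comp j = algebraMap K Ω) (h' : t'.comp j' = algebraMap K Ω) :
    ∃ σ : Ω ≃+* Ω, ∀ a, σ (t a) = t' a :=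
  @iso F Ω Ω _ _ _ t.toAlgebra t'.toAlgebra _ _ (algebraic_of_comp j t h)
    (algebraic_of_comp j' t' h')

section

variable (Ω : Type) [Field Ω] [Algebra (RatFunc ℂ) Ω] [Algebra ℂ Ω] [IsScalarTower ℂ (RatFunc ℂ) Ω]

/-- the image of the variable -/
noncomputable def xx : Ω := algebraMap (RatFunc ℂ) Ω RatFunc.X

theorem xx_tr : Transcendental ℂ (xx Ω) := by
  unfold xx
  rw [transcendental_algebraMap_iff (algebraMap (RatFunc ℂ) Ω).injective]
  exact RatFunc.transcendental_X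

theorem xx_ne_zero : xx Ω ≠ 0 := fun h => xx_tr Ω (h ▸ isAlgebraic_zero)

variable {Ω}

/-- substitution of a transcendental element -/
noncomputable def tau (u : Ω) (hu : Transcendental ℂ u) : RatFunc ℂ →+* Ω :=
  IsFractionRing.lift (A := ℂ[X]) (K := RatFunc ℂ) (g := (aeval u : ℂ[X] →ₐ[ℂ] Ω).toRingHom)
    (transcendental_iff_injective.1 hu)

theorem tau_alg (u : Ω) (hu : Transcendental ℂ u) (p : ℂ[X]) :
    tau u hu (algebraMap ℂ[X] (RatFunc ℂ) p) = aeval u p := by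
  unfold tau
  rw [IsFractionRing.lift_algebraMap]
  rfl

theorem tau_X (u : Ω) (hu : Transcendental ℂ u) : tau u hu RatFunc.X = u := by
  have := tau_alg u hu X
  rwa [RatFunc.algebraMap_X, aeval_X] at this

theorem tau_C (u : Ω) (hu : Transcendental ℂ u) (c : ℂ) :
    tau u hu (algebraMap ℂ (RatFunc ℂ) c) = algebraMap ℂ Ω c := by
  have := tau_alg u hu (C c)
  rw [aeval_C] at this
  rw [← this]
  congr 1

theorem hom_ext' {A : Type} [Field A] (s t : RatFunc ℂ →+* A)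
    (h1 : ∀ c : ℂ, s (algebraMap ℂ (RatFunc ℂ) c) = t (algebraMap ℂ (RatFunc ℂ) c))
    (h2 : s RatFunc.X = t RatFunc.X) : s = t := by
  apply IsLocalization.ringHom_ext (nonZeroDivisors ℂ[X])
  apply Polynomial.ringHom_ext
  · intro c
    exact h1 c
  · simpa using h2

theorem root_iff (e : ℕ) (y : Ω) : aeval y (tri e) = 0 ↔ y ^ e = xx Ω * (y - 1) := by
  unfold tri xx
  simp only [map_add, map_sub, map_mul, map_pow, aeval_X, aeval_C]
  constructor
  · intro h
    linear_combination h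
  · intro h
    linear_combination h

theorem root_ne_zero {e : ℕ} (he : 2 ≤ e) {y : Ω} (hy : y ^ e = xx Ω * (y - 1)) : y ≠ 0 := by
  rintro rfl
  rw [zero_pow (by omega)] at hy
  apply xx_ne_zero Ω
  linear_combination hy

theorem root_ne_one {e : ℕ} {y : Ω} (hy : y ^ e = xx Ω * (y - 1)) : y ≠ 1 := by
  rintro rfl
  simp at hy

theorem quot {e : ℕ} (he : 2 ≤ e) {y z : Ω} (hy : y ^ e = xx Ω * (y - 1))
    (hz : z ^ e = xx Ω * (z - 1)) (hyz : y ≠ z) :
    (z / y) ^ e - z / y ≠ 0 ∧ y = ((z / y) ^ e - 1) / ((z / y) ^ e - z / y) := by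
  have hy0 := root_ne_zero he hy
  have hz0 := root_ne_zero he hz
  have hx0 := xx_ne_zero Ω
  have hy1 : y - 1 ≠ 0 := sub_ne_zero.2 (root_ne_one hy)
  set u := z / y with hu
  have hzu : z = u * y := by rw [hu]; field_simp
  have hu0 : u ≠ 0 := div_ne_zero hz0 hy0
  have hu1 : u ≠ 1 := by
    intro h
    apply hyz
    rw [hzu, h, one_mul]
  have key : y * (u ^ e - u) = u ^ e - 1 := by
    have h1 : xx Ω * (u ^ e * (y - 1)) = xx Ω * (u * y - 1) := by
      have h2 := hz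
      rw [hzu, mul_pow, hy] at h2
      linear_combination h2
    have h2 := mul_left_cancel₀ hx0 h1
    linear_combination h2
  have hne : u ^ e - u ≠ 0 := by
    intro h
    rw [h, mul_zero] at key
    apply hu1
    have h3 : u ^ e = 1 := by linear_combination -key
    rw [h3] at h
    linear_combination -h
  refine ⟨hne, ?_⟩
  rw [eq_div_iff hne, key]

theorem u_tr {e : ℕ} (he : 2 ≤ e) {y z : Ω} (hy : y ^ e = xx Ω * (y - 1))
    (hz : z ^ e = xx Ω * (z - 1)) (hyz : y ≠ z) : Transcendental ℂ (z / y) := by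
  intro hu
  obtain ⟨h1, h2⟩ := quot he hy hz hyz
  have hy1 : y - 1 ≠ 0 := sub_ne_zero.2 (root_ne_one hy)
  have halg : IsAlgebraic ℂ y := by
    rw [h2, div_eq_mul_inv]
    exact ((hu.pow e).sub isAlgebraic_one).mul (((hu.pow e).sub hu).inv)
  apply xx_tr Ω
  have h3 : xx Ω = y ^ e * (y - 1)⁻¹ := by
    rw [hy]
    field_simp
  rw [h3]
  exact (halg.pow e).mul ((halg.sub isAlgebraic_one).inv)

/-- the group of a trinomial is doubly transitive on the roots -/
theorem two_trans [IsAlgClosed Ω] [Algebra.IsAlgebraic (RatFunc ℂ) Ω] {e : ℕ} (he : 2 ≤ e)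
    {y z y' z' : Ω} (hy : aeval y (tri e) = 0) (hz : aeval z (tri e) = 0) (hyz : y ≠ z)
    (hy' : aeval y' (tri e) = 0) (hz' : aeval z' (tri e) = 0) (hyz' : y' ≠ z') :
    ∃ σ : Ω ≃ₐ[RatFunc ℂ] Ω, σ y = y' ∧ σ z = z' := by
  rw [root_iff] at hy hz hy' hz'
  obtain ⟨h1, h2⟩ := quot he hy hz hyz
  obtain ⟨h1', h2'⟩ := quot he hy' hz' hyz'
  have hy1 : y - 1 ≠ 0 := sub_ne_zero.2 (root_ne_one hy)
  have hy1' : y' - 1 ≠ 0 := sub_ne_zero.2 (root_ne_one hy')
  have hu := u_tr he hy hz hyz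
  have hu' := u_tr he hy' hz' hyz'
  have hy0 := root_ne_zero he hy
  have hy0' := root_ne_zero he hy'
  -- the rational functions
  let ρ : RatFunc ℂ := (RatFunc.X ^ e - 1) / (RatFunc.X ^ e - RatFunc.X)
  let ξ : RatFunc ℂ := ρ ^ e / (ρ - 1)
  have hρ : tau _ hu ρ = y := by
    simp only [ρ, map_div₀, map_sub, map_pow, map_one, tau_X]
    exact h2.symm
  have hρ' : tau _ hu' ρ = y' := by
    simp only [ρ, map_div₀, map_sub, map_pow, map_one, tau_X]
    exact h2'.symm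
  have hξ : tau _ hu ξ = xx Ω := by
    simp only [ξ, map_div₀, map_sub, map_pow, map_one, hρ]
    rw [hy]
    field_simp
  have hξ' : tau _ hu' ξ = xx Ω := by
    simp only [ξ, map_div₀, map_sub, map_pow, map_one, hρ']
    rw [hy']
    field_simp
  have hξtr : Transcendental ℂ ξ := by
    intro h
    apply xx_tr Ω
    obtain ⟨p, hp0, hp⟩ := h
    refine ⟨p, hp0, ?_⟩
    have h5 := congrArg (tau _ hu) hp
    rw [map_zero] at h5
    rw [← h5, aeval_def, aeval_def, hom_eval₂, hξ]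
    congr 1
    ext c
    exact (tau_C _ hu c).symm
  have hj : (tau _ hu).comp (tau ξ hξtr) = algebraMap (RatFunc ℂ) Ω := by
    apply hom_ext'
    · intro c
      rw [RingHom.comp_apply, tau_C, tau_C, ← IsScalarTower.algebraMap_apply]
    · rw [RingHom.comp_apply, tau_X, hξ]
      rfl
  have hj' : (tau _ hu').comp (tau ξ hξtr) = algebraMap (RatFunc ℂ) Ω := by
    apply hom_ext'
    · intro c
      rw [RingHom.comp_apply, tau_C, tau_C, ← IsScalarTower.algebraMap_apply]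
    · rw [RingHom.comp_apply, tau_X, hξ']
      rfl
  obtain ⟨σ, hσ⟩ := ext_hom (tau ξ hξtr) (tau ξ hξtr) (tau _ hu) (tau _ hu') hj hj'
  have hσu : σ (z / y) = z' / y' := by
    have := hσ RatFunc.X
    rwa [tau_X, tau_X] at this
  have hσy : σ y = y' := by
    have := hσ ρ
    rwa [hρ, hρ'] at this
  refine ⟨AlgEquiv.ofRingEquiv (f := σ) ?_, hσy, ?_⟩
  · intro r
    have e1 : tau _ hu (tau ξ hξtr r) = algebraMap (RatFunc ℂ) Ω r := RingHom.congr_fun hj r
    have e2 : tau _ hu' (tau ξ hξtr r) = algebraMap (RatFunc ℂ) Ω r := RingHom.congr_fun hj' r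
    have e3 := hσ (tau ξ hξtr r)
    rwa [e1, e2] at e3
  · change σ z = z'
    have h3 : z = (z / y) * y := by field_simp
    rw [h3, map_mul, hσu, hσy]
    field_simp

end

end Pool.Agent.N301.PEN
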